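import Mathlib
import Pool.Agent.H21.LatDefs
import Pool.Agent.H21.Lat

namespace Pool.Agent.Results.MP_d4b74c_al.NotFinite

open Pool.Agent.H21.Lat

theorem result : ¬ ∃ T : Finset lang.Sentence,
    ∀ (L : Type) [Lattice L] [Nonempty L], InKD L ↔ ∀ φ ∈ T, Sat L φ :=
  fun ⟨T, h⟩ => main T (fun L _ => InKD L) (fun _ _ => KF_KD) (fun _ _ h => h) h

end Pool.Agent.Results.MP_d4b74c_al.NotFinite
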